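import Pool.Agent.U79.GZ.Stm

/-!
# Project GZ, package BON: the Bonferroni inequalities for subspaces
-/

set_option autoImplicit false

namespace Pool.Agent.U876.GZ

open Finset
open Pool.Agent.U79.GZ (ak Ik S_BON)

lemma two_pos (k : ℕ) : (0 : ℝ) < 2 ^ (k + 1) - 1 := by
  have : (1 : ℝ) < 2 ^ (k + 1) := one_lt_pow₀ (by norm_num) (by omega)
  linarith

lemma ak_succ (k : ℕ) : ak (k + 1) * (2 ^ (k + 1) - 1) = ak k := by
  unfold ak
  rw [Finset.prod_range_succ]
  have := (two_pos k).ne'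
  field_simp

lemma ak_pos (k : ℕ) : 0 < ak k := by
  unfold ak
  exact Finset.prod_pos fun i _ => one_div_pos.2 (two_pos i)

lemma Ik_succ' (k : ℕ) (N : ℝ) : Ik (k + 1) N = (N - 1) * ∏ i ∈ range k, (N - 2 ^ (i + 1)) := by
  unfold Ik
  rw [Finset.prod_range_succ', pow_zero, mul_comm]

lemma partial_sum (K : ℕ) (N : ℝ) : ∑ k ∈ range (K + 1), (-1 : ℝ) ^ k * (ak k * Ik k N) =
    (-1) ^ K * (ak K * ∏ i ∈ range K, (N - 2 ^ (i + 1))) := by
  induction K with
  | zero => simp [Ik]
  | succ K ih =>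
    rw [Finset.sum_range_succ, ih, Ik_succ', Finset.prod_range_succ, ← ak_succ K]
    ring

theorem t_BON : S_BON := by
  intro n K
  rcases Nat.eq_zero_or_pos n with rfl | hn
  · rw [partial_sum, Ik_succ']
    simp only [if_true, pow_zero, sub_self, zero_mul, mul_zero]
    have h := ak_succ
    have h2 : ∏ i ∈ range K, ((1 : ℝ) - 2 ^ (i + 1)) = (-1) ^ K * ∏ i ∈ range K, ((2 : ℝ) ^ (i + 1) - 1) := by
      rw [← Finset.card_range K, ← Finset.prod_const, Finset.card_range, ← Finset.prod_mul_distrib]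
      exact Finset.prod_congr rfl fun i _ => by ring
    have h3 : ak K * ∏ i ∈ range K, ((2 : ℝ) ^ (i + 1) - 1) = 1 := by
      unfold ak
      rw [← Finset.prod_mul_distrib]
      exact Finset.prod_eq_one fun i _ => by
        have := (two_pos i).ne'
        field_simp
    rw [h2, show (-1 : ℝ) ^ K * (ak K * ((-1) ^ K * ∏ i ∈ range K, ((2 : ℝ) ^ (i + 1) - 1))) =
      ((-1) ^ K * (-1) ^ K) * (ak K * ∏ i ∈ range K, ((2 : ℝ) ^ (i + 1) - 1)) by ring, h3,
      ← mul_pow]
    simp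
  · rw [if_neg (by omega), zero_sub, abs_neg, partial_sum, Ik_succ', abs_mul, abs_pow, abs_neg, abs_one,
      one_pow, one_mul]
    rcases Nat.lt_or_ge K n with hK | hK
    · have h0 : 0 ≤ ∏ i ∈ range K, ((2 : ℝ) ^ n - 2 ^ (i + 1)) := by
        refine Finset.prod_nonneg fun i hi => ?_
        have hi' : i < K := Finset.mem_range.1 hi
        have : (2 : ℝ) ^ (i + 1) ≤ 2 ^ n := pow_le_pow_right₀ (by norm_num) (by omega)
        linarith
      rw [abs_of_nonneg (mul_nonneg (ak_pos K).le h0), ← ak_succ K, mul_assoc]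
      refine mul_le_mul_of_nonneg_left (mul_le_mul_of_nonneg_right ?_ h0) (ak_pos _).le
      have : (2 : ℝ) ^ (K + 1) ≤ 2 ^ n := pow_le_pow_right₀ (by norm_num) (by omega)
      linarith
    · have h0 : ∏ i ∈ range K, ((2 : ℝ) ^ n - 2 ^ (i + 1)) = 0 := by
        refine Finset.prod_eq_zero (i := n - 1) (Finset.mem_range.2 (by omega)) ?_
        rw [Nat.sub_add_cancel hn, sub_self]
      rw [h0]; simp

end Pool.Agent.U876.GZ
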